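import Pool.Agent.MP_ed9623_an.H77.SpecZ

/-! The equations of the time derivatives. -/

open MeasureTheory Filter Topology Set
open scoped ContDiff

namespace Pool.Agent.MP_ed9623_an.H77

namespace JetEq

theorem leib {E : Type} [NormedAddCommGroup E] [NormedSpace ℝ E] {U : ℝ → E} (hU : ContDiff ℝ ∞ U)
    (l l' : E →L[ℝ] ℝ) (b : E →L[ℝ] E →L[ℝ] ℝ) (c : ℝ)
    (h : ∀ t, l (U t) + l' (deriv U t) = c + b (U t) (U t)) (m : ℕ) (t : ℝ) :
    l (iteratedDeriv m U t) + l' (iteratedDeriv (m + 1) U t) = (if m = 0 then c else 0) +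
      ∑ i ∈ Finset.range (m + 1),
        (m.choose i : ℝ) * b (iteratedDeriv i U t) (iteratedDeriv (m - i) U t) := by
  have d : ∀ i t, HasDerivAt (iteratedDeriv i U) (iteratedDeriv (i + 1) U t) t := fun i t => by
    rw [iteratedDeriv_succ]
    exact sm_hasDerivAt (sm_iter hU i) t
  induction m generalizing t with
  | zero => simpa using h t
  | succ m ih =>
    have h1 := (l.hasFDerivAt.comp_hasDerivAt t (d m t)).add
      (l'.hasFDerivAt.comp_hasDerivAt t (d (m + 1) t))
    have h2 := (HasDerivAt.fun_sum (u := Finset.range (m + 1)) fun i _ =>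
      ((b.hasFDerivAt.comp_hasDerivAt t (d i t)).clm_apply (d (m - i) t)).const_mul
        (m.choose i : ℝ)).const_add (if m = 0 then c else 0)
    rw [h1.unique (h2.congr_of_eventuallyEq (Eventually.of_forall ih)), if_neg m.succ_ne_zero,
      zero_add, Finset.sum_choose_succ_mul fun i j => b (iteratedDeriv i U t) (iteratedDeriv j U t),
      ← Finset.sum_add_distrib]
    refine Finset.sum_congr rfl fun i hi => ?_
    rw [Nat.sub_add_comm (Finset.mem_range_succ_iff.1 hi), mul_add, add_comm]
    rfl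

end JetEq

theorem rowJetEq : OfJetEq := by
  intro r g G U h m t θ hθ
  have hp := fun j => (hθ.perp Gam.zero j).mono (subset_univ _)
  obtain ⟨l, hl⟩ := exists_di hp
  obtain ⟨l', hl'⟩ := exists_ip fun j => (hp j).m2
  obtain ⟨b, hb⟩ := exists_tl hp
  simp only [← hl, ← hl', ← hb]
  refine JetEq.leib h.sm l l' b _ (fun s => ?_) m t
  have h1 := h.eq s θ hθ
  have h2 : ip (fun j p => g j p - vl (deriv U s) j p) (perp (fun _ => 0) θ) =
      ip g (perp (fun _ => 0) θ) - ip (vl (deriv U s)) (perp (fun _ => 0) θ) := by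
    simp only [ip, sub_mul, ← Finset.sum_sub_distrib]
    exact Finset.sum_congr rfl fun j _ =>
      integral_sub ((h.mg j).int_mul (hp j).m2) ((m2_vl _ j).int_mul (hp j).m2)
  rw [E2, h2] at h1
  rw [hl, hl', hb]
  linarith

end Pool.Agent.MP_ed9623_an.H77
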